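import Pool.Agent.J4H97.LA.GroCore
set_option autoImplicit false

/-! Project LA (helper48, MP_743d1e_nt): (CEN), comparison with the centroid of a lattice triangle. -/

namespace Pool.Agent.J4H97.LA

open Finset

/-- `c` is on the same side of every integer as `q`, and has distance at least `1/3` from the integers -/
structure Near (q c : ℝ) : Prop where
  side : ∀ p : ℤ, q - p ≠ 0 → 0 < (c - p) / (q - p)
  third : ∃ i : ℤ, c = i + 1 / 3 ∨ c = i + 2 / 3

theorem near1 (q r : ℝ) (hr : r = 1 / 3 ∨ r = 2 / 3) : Near q (⌊q⌋ + r) := by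
  have h1 := Int.floor_le q
  have h2 := Int.lt_floor_add_one q
  have hr0 : 0 < r ∧ r < 1 := by rcases hr with rfl | rfl <;> norm_num
  refine ⟨fun p hp => ?_, ⟨⌊q⌋, by rcases hr with rfl | rfl <;> simp⟩⟩
  rcases le_or_gt p ⌊q⌋ with h | h
  · have h3 : (p : ℝ) ≤ ⌊q⌋ := by exact_mod_cast h
    have h4 : 0 < q - p := lt_of_le_of_ne (by linarith) (Ne.symm hp)
    exact div_pos (by linarith) h4
  · have h3 : (⌊q⌋ : ℝ) + 1 ≤ p := by exact_mod_cast h
    exact div_pos_of_neg_of_neg (by linarith) (by linarith)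

theorem near2 (q : ℝ) (i : ℤ) (h : q = i) : Near q (i - 1 + 1 / 3) := by
  refine ⟨fun p hp => ?_, ⟨i - 1, by push_cast; simp⟩⟩
  have hne : p ≠ i := by
    rintro rfl
    exact hp (by rw [h]; ring)
  rcases lt_or_gt_of_ne hne with h1 | h1
  · have h3 : (p : ℝ) + 1 ≤ i := by exact_mod_cast h1
    exact div_pos (by linarith) (by linarith)
  · have h3 : (i : ℝ) + 1 ≤ p := by exact_mod_cast h1
    exact div_pos_of_neg_of_neg (by linarith) (by linarith)

theorem exists_near (q : Fin 3 → ℝ) (h0 : q 0 + q 1 + q 2 = 0) :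
    ∃ c : Fin 3 → ℝ, c 0 + c 1 + c 2 = 0 ∧ ∀ k, Near (q k) (c k) := by
  have a0 := Int.floor_le (q 0)
  have a1 := Int.floor_le (q 1)
  have a2 := Int.floor_le (q 2)
  have b0 := Int.lt_floor_add_one (q 0)
  have b1 := Int.lt_floor_add_one (q 1)
  have b2 := Int.lt_floor_add_one (q 2)
  have u1 : ⌊q 0⌋ + ⌊q 1⌋ + ⌊q 2⌋ ≤ 0 := by
    have : ((⌊q 0⌋ + ⌊q 1⌋ + ⌊q 2⌋ : ℤ) : ℝ) ≤ 0 := by push_cast; linarith
    exact_mod_cast this
  have u2 : -3 < ⌊q 0⌋ + ⌊q 1⌋ + ⌊q 2⌋ := by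
    have : (-3 : ℝ) < ((⌊q 0⌋ + ⌊q 1⌋ + ⌊q 2⌋ : ℤ) : ℝ) := by push_cast; linarith
    exact_mod_cast this
  have hs : ⌊q 0⌋ + ⌊q 1⌋ + ⌊q 2⌋ = 0 ∨ ⌊q 0⌋ + ⌊q 1⌋ + ⌊q 2⌋ = -1 ∨ ⌊q 0⌋ + ⌊q 1⌋ + ⌊q 2⌋ = -2 := by omega
  rcases hs with h | h | h
  · have h' : (⌊q 0⌋ : ℝ) + ⌊q 1⌋ + ⌊q 2⌋ = 0 := by exact_mod_cast h
    refine ⟨![⌊q 0⌋ - 1 + 1 / 3, ⌊q 1⌋ + 1 / 3, ⌊q 2⌋ + 1 / 3], ?_, fun k => ?_⟩
    · simp only [Matrix.cons_val_zero, Matrix.cons_val_one, Matrix.cons_val]
      linarith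
    · fin_cases k
      · exact near2 (q 0) ⌊q 0⌋ (by linarith)
      · exact near1 (q 1) (1 / 3) (Or.inl rfl)
      · exact near1 (q 2) (1 / 3) (Or.inl rfl)
  · have h' : (⌊q 0⌋ : ℝ) + ⌊q 1⌋ + ⌊q 2⌋ = -1 := by exact_mod_cast h
    refine ⟨fun k => ⌊q k⌋ + 1 / 3, ?_, fun k => near1 _ _ (Or.inl rfl)⟩
    beta_reduce
    linarith
  · have h' : (⌊q 0⌋ : ℝ) + ⌊q 1⌋ + ⌊q 2⌋ = -2 := by exact_mod_cast h
    refine ⟨fun k => ⌊q k⌋ + 2 / 3, ?_, fun k => near1 _ _ (Or.inr rfl)⟩
    beta_reduce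
    linarith

/-- the product of the distances to different integers -/
theorem prod_dist (c : ℝ) (hc : ∃ i : ℤ, c = i + 1 / 3 ∨ c = i + 2 / 3) (S : Finset ℤ) :
    (2 : ℝ) / 9 ≤ ∏ p ∈ S, |c - p| := by
  obtain ⟨i, hi⟩ := hc
  have h := prod_ge_of S {i, i + 1} (fun p : ℤ => |c - p|) ?_ ?_
  · refine le_trans (le_of_eq ?_) h
    rw [prod_insert (by simp), prod_singleton]
    push_cast
    rcases hi with rfl | rfl
    · rw [show (i : ℝ) + 1 / 3 - i = 1 / 3 by ring, show (i : ℝ) + 1 / 3 - (i + 1) = -(2 / 3) by ring, abs_neg,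
        abs_of_pos (by norm_num), abs_of_pos (by norm_num)]
      norm_num
    · rw [show (i : ℝ) + 2 / 3 - i = 2 / 3 by ring, show (i : ℝ) + 2 / 3 - (i + 1) = -(1 / 3) by ring, abs_neg,
        abs_of_pos (by norm_num), abs_of_pos (by norm_num)]
      norm_num
  · intro p hp
    simp only [mem_insert, mem_singleton] at hp
    refine ⟨abs_nonneg _, abs_le.2 ?_⟩
    rcases hp with rfl | rfl <;> rcases hi with rfl | rfl <;> constructor <;> push_cast <;> linarith
  · intro p _ hp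
    simp only [mem_insert, mem_singleton, not_or] at hp
    have h1 : p + 1 ≤ i ∨ i + 2 ≤ p := by omega
    rw [le_abs]
    rcases h1 with h1 | h1
    · left
      have h3 : (p : ℝ) + 1 ≤ i := by exact_mod_cast h1
      rcases hi with rfl | rfl <;> linarith
    · right
      have h3 : (i : ℝ) + 2 ≤ p := by exact_mod_cast h1
      rcases hi with rfl | rfl <;> linarith

theorem cen (m : ℕ) (cls : Fin (m + 1) → Fin 3) (pos : Fin (m + 1) → ℤ)
    (q : Fin 3 → ℝ) (S : ℝ) (hinj : ∀ e f, cls e = cls f → pos e = pos f → e = f)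
    (h0 : q 0 + q 1 + q 2 = 0) (hne : ∀ e, q (cls e) - pos e ≠ 0)
    (hS : ∀ k, ∑ e ∈ Finset.univ.filter (fun e => cls e = k), 1 / (q k - pos e) = S) :
    (8 : ℝ) / 729 ≤ ∏ e, |q (cls e) - pos e| := by
  obtain ⟨c, hc0, hc⟩ := exists_near q h0
  have h1 : (8 : ℝ) / 729 ≤ ∏ e, |c (cls e) - pos e| := by
    rw [← Finset.prod_fiberwise univ cls]
    have h2 : ∀ k, (2 : ℝ) / 9 ≤ ∏ e ∈ univ.filter (fun e => cls e = k), |c (cls e) - pos e| := by
      intro k
      have h3 := prod_dist (c k) (hc k).third ((univ.filter (fun e => cls e = k)).image pos)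
      rw [prod_image] at h3
      · refine h3.trans (le_of_eq (prod_congr rfl fun e he => ?_))
        rw [(mem_filter.1 he).2]
      · intro e he f hf hef
        exact hinj e f ((mem_filter.1 (mem_coe.1 he)).2.trans (mem_filter.1 (mem_coe.1 hf)).2.symm) hef
    rw [Fin.prod_univ_three]
    calc (8 : ℝ) / 729 = 2 / 9 * (2 / 9) * (2 / 9) := by norm_num
      _ ≤ _ := mul_le_mul (mul_le_mul (h2 0) (h2 1) (by norm_num) (prod_nonneg fun _ _ => abs_nonneg _)) (h2 2)
          (by norm_num) (mul_nonneg (prod_nonneg fun _ _ => abs_nonneg _) (prod_nonneg fun _ _ => abs_nonneg _))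
  refine h1.trans ?_
  have h4 : ∏ e, ((c (cls e) - pos e) / (q (cls e) - pos e)) ≤ 1 := by
    calc ∏ e, ((c (cls e) - pos e) / (q (cls e) - pos e))
        ≤ ∏ e, Real.exp ((c (cls e) - pos e) / (q (cls e) - pos e) - 1) := by
          refine prod_le_prod (fun e _ => ((hc (cls e)).side (pos e) (hne e)).le) fun e _ => ?_
          have := Real.add_one_le_exp ((c (cls e) - pos e) / (q (cls e) - pos e) - 1)
          linarith
      _ = 1 := by
          rw [← Real.exp_sum, Real.exp_eq_one_iff]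
          have h5 : ∀ e, (c (cls e) - pos e) / (q (cls e) - pos e) - 1 =
              (c (cls e) - q (cls e)) * (1 / (q (cls e) - pos e)) := by
            intro e
            have := hne e
            field_simp
            ring
          simp only [h5]
          rw [← Finset.sum_fiberwise univ cls]
          have h6 : ∀ k, ∑ e ∈ univ.filter (fun e => cls e = k),
              (c (cls e) - q (cls e)) * (1 / (q (cls e) - pos e)) = (c k - q k) * S := by
            intro k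
            rw [← hS k, mul_sum]
            refine sum_congr rfl fun e he => ?_
            rw [(mem_filter.1 he).2]
          simp only [h6]
          rw [Fin.sum_univ_three]
          linear_combination S * hc0 - S * h0
  have h7 : ∏ e, |c (cls e) - pos e| =
      (∏ e, ((c (cls e) - pos e) / (q (cls e) - pos e))) * ∏ e, |q (cls e) - pos e| := by
    rw [← prod_mul_distrib]
    refine prod_congr rfl fun e _ => ?_
    rw [← abs_of_pos ((hc (cls e)).side (pos e) (hne e)), ← abs_mul, div_mul_cancel₀ _ (hne e)]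
  rw [h7]
  exact mul_le_of_le_one_left (prod_nonneg fun _ _ => abs_nonneg _) h4

end Pool.Agent.J4H97.LA
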