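import Mathlib
set_option autoImplicit false

/-! Project LA (helper48, MP_743d1e_nt): (GRO), the growth of products of half integers, and products of distances to integers. -/

namespace Pool.Agent.J4H97.LA

open Finset

/-- a product with only few factors below one -/
theorem prod_ge_of {ι : Type*} [DecidableEq ι] (S T : Finset ι) (f : ι → ℝ) (h1 : ∀ s ∈ T, 0 ≤ f s ∧ f s ≤ 1)
    (h2 : ∀ s ∈ S, s ∉ T → 1 ≤ f s) : ∏ s ∈ T, f s ≤ ∏ s ∈ S, f s := by
  rw [← Finset.prod_inter_mul_prod_sdiff S T f, ← Finset.prod_inter_mul_prod_sdiff T S f, Finset.inter_comm T S]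
  have a1 : ∏ s ∈ T \ S, f s ≤ 1 :=
    Finset.prod_le_one (fun s hs => (h1 s (mem_sdiff.1 hs).1).1) fun s hs => (h1 s (mem_sdiff.1 hs).1).2
  have a2 : 1 ≤ ∏ s ∈ S \ T, f s := by
    calc (1 : ℝ) = ∏ _s ∈ S \ T, 1 := by simp
      _ ≤ ∏ s ∈ S \ T, f s := Finset.prod_le_prod (fun _ _ => zero_le_one) fun s hs =>
          h2 s (mem_sdiff.1 hs).1 (mem_sdiff.1 hs).2
  have a3 : 0 ≤ ∏ s ∈ S ∩ T, f s := Finset.prod_nonneg fun s hs => (h1 s (mem_inter.1 hs).2).1
  exact (mul_le_of_le_one_right a3 a1).trans (le_mul_of_one_le_right a3 a2)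

theorem gro (S : Finset ℤ) (h0 : (0 : ℤ) ∉ S) :
    (9 / 256 : ℝ) * 2 ^ S.card ≤ ∏ s ∈ S, (|(s : ℝ)| - 1 / 2) := by
  have e : ∏ s ∈ S, (|(s : ℝ)| - 1 / 2) = (∏ s ∈ S, ((|(s : ℝ)| - 1 / 2) / 2)) * 2 ^ S.card := by
    rw [Finset.prod_div_distrib, Finset.prod_const, div_mul_cancel₀ _ (by positivity)]
  rw [e]
  refine mul_le_mul_of_nonneg_right ?_ (by positivity)
  have h := prod_ge_of S {-2, -1, 1, 2} (fun s : ℤ => (|(s : ℝ)| - 1 / 2) / 2) ?_ ?_
  · refine le_trans (le_of_eq ?_) h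
    rw [prod_insert (by decide), prod_insert (by decide), prod_insert (by decide), prod_singleton]
    push_cast
    norm_num
  · intro s hs
    simp only [mem_insert, mem_singleton] at hs
    rcases hs with rfl | rfl | rfl | rfl <;> push_cast <;> norm_num
  · intro s hs hT
    simp only [mem_insert, mem_singleton, not_or] at hT
    have h0' : s ≠ 0 := fun h => h0 (h ▸ hs)
    have h3 : (3 : ℤ) ≤ |s| := by
      obtain ⟨t1, t2, t3, t4⟩ := hT
      rcases abs_cases s with ⟨h, _⟩ | ⟨h, _⟩ <;> rw [h] <;> omega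
    have h4 : (3 : ℝ) ≤ |(s : ℝ)| := by
      rw [← Int.cast_abs]
      exact_mod_cast h3
    linarith

end Pool.Agent.J4H97.LA
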