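import Pool.Agent.J4H48.LA.Stm2
import Pool.Agent.J4H97.LA.CenCore
set_option autoImplicit false

/-! Project LA version 2 (helper48, MP_743d1e_nt): (CEN2), comparison with the centroid of a lattice triangle. -/

namespace Pool.Agent.J4H97.LA

open Finset

/-- half of the distances to different integers: only four factors are below one -/
theorem prod_dist2 (c : ℝ) (hc : ∃ i : ℤ, c = i + 1 / 3 ∨ c = i + 2 / 3) (S : Finset ℤ) :
    (5 : ℝ) / 162 ≤ ∏ p ∈ S, (|c - p| / 2) := by
  obtain ⟨i, hi⟩ := hc
  have ab : ∀ u v : ℝ, 0 < v → u = v ∨ u = -v → |u| = v := by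
    intro u v hv h
    rcases h with rfl | rfl
    · exact abs_of_pos hv
    · rw [abs_neg, abs_of_pos hv]
  have h := prod_ge_of S {i - 1, i, i + 1, i + 2} (fun p : ℤ => |c - p| / 2) ?_ ?_
  · refine le_trans (le_of_eq ?_) h
    rw [prod_insert (by simp only [mem_insert, mem_singleton]; omega),
      prod_insert (by simp only [mem_insert, mem_singleton]; omega),
      prod_insert (by simp only [mem_singleton]; omega), prod_singleton]
    push_cast
    rcases hi with hi | hi
    · rw [ab (c - (i - 1)) (4 / 3) (by norm_num) (Or.inl (by linarith)),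
        ab (c - i) (1 / 3) (by norm_num) (Or.inl (by linarith)),
        ab (c - (i + 1)) (2 / 3) (by norm_num) (Or.inr (by linarith)),
        ab (c - (i + 2)) (5 / 3) (by norm_num) (Or.inr (by linarith))]
      norm_num
    · rw [ab (c - (i - 1)) (5 / 3) (by norm_num) (Or.inl (by linarith)),
        ab (c - i) (2 / 3) (by norm_num) (Or.inl (by linarith)),
        ab (c - (i + 1)) (1 / 3) (by norm_num) (Or.inr (by linarith)),
        ab (c - (i + 2)) (4 / 3) (by norm_num) (Or.inr (by linarith))]
      norm_num
  · intro p hp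
    simp only [mem_insert, mem_singleton] at hp
    refine ⟨by positivity, ?_⟩
    have h2 : |c - p| ≤ 2 := by
      rw [abs_le]
      rcases hp with rfl | rfl | rfl | rfl <;> rcases hi with hi | hi <;> constructor <;> push_cast <;> linarith
    linarith
  · intro p _ hp
    simp only [mem_insert, mem_singleton, not_or] at hp
    have h1 : p + 2 ≤ i ∨ i + 3 ≤ p := by omega
    have h2 : 2 ≤ |c - p| := by
      rw [le_abs]
      rcases h1 with h1 | h1
      · left
        have h3 : (p : ℝ) + 2 ≤ i := by exact_mod_cast h1
        rcases hi with hi | hi <;> linarith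
      · right
        have h3 : (i : ℝ) + 3 ≤ p := by exact_mod_cast h1
        rcases hi with hi | hi <;> linarith
    linarith

theorem t_CEN2 : Pool.Agent.J4H48.LA.S_CEN2 := by
  intro m cls pos q S hinj h0 hne hS
  obtain ⟨c, hc0, hc⟩ := exists_near q h0
  have h1' : (5 / 162 : ℝ) ^ 3 ≤ ∏ e, (|c (cls e) - pos e| / 2) := by
    rw [← Finset.prod_fiberwise univ cls]
    have h2 : ∀ k, (5 : ℝ) / 162 ≤ ∏ e ∈ univ.filter (fun e => cls e = k), (|c (cls e) - pos e| / 2) := by
      intro k
      have h3 := prod_dist2 (c k) (hc k).third ((univ.filter (fun e => cls e = k)).image pos)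
      rw [prod_image] at h3
      · refine h3.trans (le_of_eq (prod_congr rfl fun e he => ?_))
        rw [(mem_filter.1 he).2]
      · intro e he f hf hef
        exact hinj e f ((mem_filter.1 (mem_coe.1 he)).2.trans (mem_filter.1 (mem_coe.1 hf)).2.symm) hef
    rw [Fin.prod_univ_three]
    have hn : ∀ k, 0 ≤ ∏ e ∈ univ.filter (fun e => cls e = k), (|c (cls e) - pos e| / 2) := fun k =>
      prod_nonneg fun _ _ => by positivity
    calc (5 / 162 : ℝ) ^ 3 = 5 / 162 * (5 / 162) * (5 / 162) := by norm_num
      _ ≤ _ := mul_le_mul (mul_le_mul (h2 0) (h2 1) (by norm_num) (hn 0)) (h2 2)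
          (by norm_num) (mul_nonneg (hn 0) (hn 1))
  have h1 : (5 / 162 : ℝ) ^ 3 * 2 ^ (m + 1) ≤ ∏ e, |c (cls e) - pos e| := by
    rw [Finset.prod_div_distrib, Finset.prod_const, Finset.card_univ, Fintype.card_fin,
      le_div_iff₀ (by positivity)] at h1'
    exact h1'
  refine h1.trans ?_
  have h4 : ∏ e, ((c (cls e) - pos e) / (q (cls e) - pos e)) ≤ 1 := by
    calc ∏ e, ((c (cls e) - pos e) / (q (cls e) - pos e))
        ≤ ∏ e, Real.exp ((c (cls e) - pos e) / (q (cls e) - pos e) - 1) := by
          refine prod_le_prod (fun e _ => ((hc (cls e)).side (pos e) (hne e)).le) fun e _ => ?_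
          have := Real.add_one_le_exp ((c (cls e) - pos e) / (q (cls e) - pos e) - 1)
          linarith
      _ = 1 := by
          rw [← Real.exp_sum, Real.exp_eq_one_iff]
          have h5 : ∀ e, (c (cls e) - pos e) / (q (cls e) - pos e) - 1 =
              (c (cls e) - q (cls e)) * (1 / (q (cls e) - pos e)) := by
            intro e
            have := hne e
            field_simp
            ring
          simp only [h5]
          rw [← Finset.sum_fiberwise univ cls]
          have h6 : ∀ k, ∑ e ∈ univ.filter (fun e => cls e = k),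
              (c (cls e) - q (cls e)) * (1 / (q (cls e) - pos e)) = (c k - q k) * S := by
            intro k
            rw [← hS k, mul_sum]
            refine sum_congr rfl fun e he => ?_
            rw [(mem_filter.1 he).2]
          simp only [h6]
          rw [Fin.sum_univ_three]
          linear_combination S * hc0 - S * h0
  have h7 : ∏ e, |c (cls e) - pos e| =
      (∏ e, ((c (cls e) - pos e) / (q (cls e) - pos e))) * ∏ e, |q (cls e) - pos e| := by
    rw [← prod_mul_distrib]
    refine prod_congr rfl fun e _ => ?_
    rw [← abs_of_pos ((hc (cls e)).side (pos e) (hne e)), ← abs_mul, div_mul_cancel₀ _ (hne e)]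
  rw [h7]
  exact mul_le_of_le_one_left (prod_nonneg fun _ _ => abs_nonneg _) h4

end Pool.Agent.J4H97.LA
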