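import Pool.Agent.J4H48.LA.Stm3
set_option autoImplicit false

/-!
(CNT3): linearly independent circulations whose sums around the triple points are zero.
-/

namespace Pool.Agent.J4H97.LA

open Pool.Agent.J4H48.LA

/-- Rational vectors in the kernel of `k` linear forms: `g - k` integral ones, independent over the
real numbers. -/
theorem kernel_vectors (g : ℕ) (T : Type) [Fintype T] (N : T → Fin g → ℤ) :
    ∃ v : Fin (g - Fintype.card T) → Fin g → ℤ, (∀ k t, ∑ i, N t i * v k i = 0) ∧
      ∀ y : Fin (g - Fintype.card T) → ℝ, (∀ i, ∑ k, y k * (v k i : ℝ) = 0) → y = 0 := by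
  classical
  let A : Matrix T (Fin g) ℚ := Matrix.of fun t i => (N t i : ℚ)
  let φ : (Fin g → ℚ) →ₗ[ℚ] (T → ℚ) := A.mulVecLin
  have h1 := LinearMap.finrank_range_add_finrank_ker φ
  have h2 : Module.finrank ℚ (LinearMap.range φ) ≤ Fintype.card T := by
    have := Submodule.finrank_le (LinearMap.range φ)
    rwa [Module.finrank_fintype_fun_eq_card] at this
  rw [Module.finrank_fintype_fun_eq_card, Fintype.card_fin] at h1
  have h3 : g - Fintype.card T ≤ Module.finrank ℚ (LinearMap.ker φ) := by omega
  let b := Module.finBasis ℚ (LinearMap.ker φ)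
  let w : Fin (g - Fintype.card T) → Fin g → ℚ := fun k => (b (Fin.castLE h3 k) : Fin g → ℚ)
  have hw : LinearIndependent ℚ w := by
    have hb : LinearIndependent ℚ fun k => (b k : Fin g → ℚ) :=
      b.linearIndependent.map' (LinearMap.ker φ).subtype (Submodule.ker_subtype _)
    exact hb.comp _ (Fin.castLE_injective h3)
  have hker : ∀ k t, ∑ i, (N t i : ℚ) * w k i = 0 := by
    intro k t
    have := (b (Fin.castLE h3 k)).2
    rw [LinearMap.mem_ker] at this
    exact congrFun this t
  -- the common denominators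
  let D : Fin (g - Fintype.card T) → ℤ := fun k => ∏ i, ((w k i).den : ℤ)
  have hD : ∀ k, D k ≠ 0 := fun k => Finset.prod_ne_zero_iff.2 fun i _ => by
    exact_mod_cast (w k i).den_ne_zero
  let v : Fin (g - Fintype.card T) → Fin g → ℤ := fun k i =>
    (w k i).num * ∏ j ∈ Finset.univ.erase i, ((w k j).den : ℤ)
  have hv : ∀ k i, (v k i : ℚ) = (D k : ℚ) * w k i := by
    intro k i
    have e1 : D k = ((w k i).den : ℤ) * ∏ j ∈ Finset.univ.erase i, ((w k j).den : ℤ) :=
      (Finset.mul_prod_erase _ _ (Finset.mem_univ i)).symm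
    have e2 : (w k i) * ((w k i).den : ℚ) = (w k i).num := Rat.mul_den_eq_num _
    rw [e1]
    simp only [v]
    push_cast
    rw [← e2]
    ring
  -- the Gram matrix
  let G : Matrix (Fin (g - Fintype.card T)) (Fin (g - Fintype.card T)) ℤ :=
    Matrix.of fun a c => ∑ i, v a i * v c i
  have hG : G.det ≠ 0 := by
    intro h0
    have h0' : (G.map (Int.cast : ℤ → ℚ)).det = 0 := by
      have := (Int.castRingHom ℚ).map_det G
      rw [h0, map_zero] at this
      exact this.symm
    obtain ⟨z, hz0, hz⟩ := Matrix.exists_mulVec_eq_zero_iff.2 h0'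
    apply hz0
    have e3 : ∑ i, (∑ k, z k * (v k i : ℚ)) ^ 2 = 0 := by
      have e4 : ∑ a, z a * ((G.map (Int.cast : ℤ → ℚ)).mulVec z) a = 0 := by
        rw [hz]; simp
      rw [← e4]
      simp only [Matrix.mulVec, dotProduct, Matrix.map_apply, G, Matrix.of_apply, sq,
        Int.cast_sum, Int.cast_mul, Finset.sum_mul, Finset.mul_sum]
      rw [Finset.sum_comm]
      refine Finset.sum_congr rfl fun a _ => ?_
      rw [Finset.sum_comm]
      refine Finset.sum_congr rfl fun c _ => ?_
      refine Finset.sum_congr rfl fun i _ => ?_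
      ring
    have e5 : ∀ i, ∑ k, z k * (v k i : ℚ) = 0 := by
      intro i
      have := (Finset.sum_eq_zero_iff_of_nonneg (fun i _ => sq_nonneg _)).1 e3 i (Finset.mem_univ i)
      exact pow_eq_zero_iff (two_ne_zero) |>.1 this
    have e6 : ∀ k, z k * (D k : ℚ) = 0 := by
      refine Fintype.linearIndependent_iff.1 hw (fun k => z k * (D k : ℚ)) ?_
      funext i
      simp only [Finset.sum_apply, Pi.smul_apply, smul_eq_mul, Pi.zero_apply]
      rw [← e5 i]
      refine Finset.sum_congr rfl fun k _ => ?_
      rw [hv]; ring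
    funext k
    have := e6 k
    rcases mul_eq_zero.1 this with h | h
    · exact h
    · exact absurd (by exact_mod_cast h) (hD k)
  refine ⟨v, ?_, ?_⟩
  · intro k t
    have : ((∑ i, N t i * v k i : ℤ) : ℚ) = 0 := by
      push_cast
      calc ∑ i, (N t i : ℚ) * (v k i : ℚ) = ∑ i, (D k : ℚ) * ((N t i : ℚ) * w k i) :=
            Finset.sum_congr rfl fun i _ => by rw [hv]; ring
        _ = (D k : ℚ) * ∑ i, (N t i : ℚ) * w k i := (Finset.mul_sum _ _ _).symm
        _ = 0 := by rw [hker, mul_zero]
    exact_mod_cast this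
  · intro y hy
    have hGR : (G.map (Int.cast : ℤ → ℝ)).det ≠ 0 := by
      have := (Int.castRingHom ℝ).map_det G
      intro h
      have h' : ((G.det : ℤ) : ℝ) = 0 := by
        have e7 : (Int.castRingHom ℝ) G.det = ((Int.castRingHom ℝ).mapMatrix G).det := this
        have e8 : ((Int.castRingHom ℝ).mapMatrix G).det = (G.map (Int.cast : ℤ → ℝ)).det := rfl
        rw [e8, h] at e7
        simpa using e7
      exact hG (by exact_mod_cast h')
    refine Matrix.eq_zero_of_mulVec_eq_zero hGR ?_
    funext a
    simp only [Matrix.mulVec, dotProduct, Matrix.map_apply, G, Matrix.of_apply,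
      Int.cast_sum, Int.cast_mul, Finset.sum_mul, Pi.zero_apply]
    rw [Finset.sum_comm]
    refine Finset.sum_eq_zero fun i _ => ?_
    calc ∑ c, (v a i : ℝ) * (v c i : ℝ) * y c = (v a i : ℝ) * ∑ c, y c * (v c i : ℝ) := by
          rw [Finset.mul_sum]
          exact Finset.sum_congr rfl fun c _ => by ring
      _ = 0 := by rw [hy, mul_zero]

theorem kernel_vectors' (g d : ℕ) (T : Type) [Fintype T] (hd : Fintype.card T = d)
    (N : T → Fin g → ℤ) :
    ∃ v : Fin (g - d) → Fin g → ℤ, (∀ k t, ∑ i, N t i * v k i = 0) ∧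
      ∀ y : Fin (g - d) → ℝ, (∀ i, ∑ k, y k * (v k i : ℝ) = 0) → y = 0 := by
  subst hd
  exact kernel_vectors g T N

theorem t_CNT3 : S_CNT → S_CNT3 := by
  intro hC m cls pos h2
  classical
  obtain ⟨C0, s, t, hcirc, hdual⟩ := hC m cls h2
  let F : Finset (Fin (m + 1) × Fin (m + 1) × Fin (m + 1)) :=
    Finset.univ.filter fun x : Fin (m + 1) × Fin (m + 1) × Fin (m + 1) =>
      cls x.1 = 0 ∧ cls x.2.1 = 1 ∧ cls x.2.2 = 2 ∧ pos x.1 + pos x.2.1 + pos x.2.2 = 0
  have hF : Fintype.card F = trip cls pos := by
    rw [Fintype.card_coe]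
    unfold trip
    congr!
  obtain ⟨v, hv0, hv1⟩ := kernel_vectors' (gen cls) (trip cls pos) F hF (fun x i =>
    C0 i x.1.1 x.1.2.1 + C0 i x.1.2.1 x.1.2.2 + C0 i x.1.2.2 x.1.1)
  have hcirc' : ∀ k, Circ cls (fun e f => ∑ i, v k i * C0 i e f) := by
    intro k
    refine ⟨?_, ?_, ?_⟩
    · intro e f
      rw [← Finset.sum_neg_distrib]
      exact Finset.sum_congr rfl fun i _ => by rw [(hcirc i).anti e f]; ring
    · intro e f h
      exact Finset.sum_eq_zero fun i _ => by rw [(hcirc i).same e f h, mul_zero]
    · intro e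
      rw [Finset.sum_comm]
      refine Finset.sum_eq_zero fun i _ => ?_
      rw [← Finset.mul_sum, (hcirc i).flow e, mul_zero]
  refine ⟨fun k e f => ∑ i, v k i * C0 i e f, ?_, ?_⟩
  · intro k
    refine ⟨hcirc' k, ?_⟩
    have base : ∀ e f u, cls e = 0 → cls f = 1 → cls u = 2 → pos e + pos f + pos u = 0 →
        (∑ i, v k i * C0 i e f) + (∑ i, v k i * C0 i f u) + (∑ i, v k i * C0 i u e) = 0 := by
      intro e f u he hf hu hp
      have hm : (e, f, u) ∈ F := by
        simp only [F, Finset.mem_filter, Finset.mem_univ, true_and]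
        exact ⟨he, hf, hu, hp⟩
      have := hv0 k ⟨(e, f, u), hm⟩
      rw [← this, ← Finset.sum_add_distrib, ← Finset.sum_add_distrib]
      exact Finset.sum_congr rfl fun i _ => by ring
    intro e f u hc
    obtain ⟨hef, hfu, hue, hp⟩ := hc
    have an := (hcirc' k).anti
    simp only at an ⊢
    have h0 : ∀ x : Fin 3, x = 0 ∨ x = 1 ∨ x = 2 := by decide
    rcases h0 (cls e) with he | he | he <;> rcases h0 (cls f) with hf | hf | hf <;>
      rcases h0 (cls u) with hu | hu | hu <;>
      first
        | exact absurd (he.trans hf.symm) hef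
        | exact absurd (hf.trans hu.symm) hfu
        | exact absurd (hu.trans he.symm) hue
        | skip
    · have := base e f u he hf hu hp
      linarith
    · have := base e u f he hu hf (by linarith)
      have a1 := an e u
      have a2 := an u f
      have a3 := an f e
      linarith
    · have := base f e u hf he hu (by linarith)
      have a1 := an f e
      have a2 := an e u
      have a3 := an u f
      linarith
    · have := base u e f hu he hf (by linarith)
      linarith
    · have := base f u e hf hu he (by linarith)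
      linarith
    · have := base u f e hu hf he (by linarith)
      have a1 := an u f
      have a2 := an f e
      have a3 := an e u
      linarith
  · intro x hx
    refine hv1 x fun i => ?_
    have := hx (s i) (t i)
    rw [← this]
    refine Finset.sum_congr rfl fun k _ => ?_
    congr 1
    push_cast
    rw [Finset.sum_eq_single i]
    · rw [hdual i i]; simp
    · intro j _ hj
      rw [hdual i j, if_neg (Ne.symm hj)]; simp
    · intro h; exact absurd (Finset.mem_univ i) h

end Pool.Agent.J4H97.LA
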