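import Pool.Agent.J4H48.LA.Stm3
import Pool.Agent.J4H87.LA.Pos2

set_option autoImplicit false

/-! Project LA, version 3, piece POS3: positivity with concurrent lines. -/

namespace Pool.Agent.J4H97.LA

open Finset Pool.Agent.J4H48.LA Pool.Agent.J4H53.LA Pool.Agent.J4H87.LA

section

variable {m : ℕ} {cls : Fin (m + 1) → Fin 3} {pos : Fin (m + 1) → ℤ}

theorem conc_cyc (e f t : Fin (m + 1)) : Conc cls pos f t e ↔ Conc cls pos e f t := by
  unfold Conc
  constructor
  · rintro ⟨h1, h2, h3, h4⟩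
    exact ⟨h3, h1, h2, by omega⟩
  · rintro ⟨h1, h2, h3, h4⟩
    exact ⟨h2, h3, h1, by omega⟩

theorem conc_swap (e f t : Fin (m + 1)) : Conc cls pos t f e ↔ Conc cls pos e f t := by
  unfold Conc
  constructor
  · rintro ⟨h1, h2, h3, h4⟩
    exact ⟨Ne.symm h2, Ne.symm h1, Ne.symm h3, by omega⟩
  · rintro ⟨h1, h2, h3, h4⟩
    exact ⟨Ne.symm h2, Ne.symm h1, Ne.symm h3, by omega⟩

theorem third3 {k0 k1 a b : Fin 3} (h : k0 ≠ k1) (ha0 : a ≠ k0) (ha1 : a ≠ k1) (hb0 : b ≠ k0)
    (hb1 : b ≠ k1) : a = b := by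
  revert k0 k1 a b; decide

theorem conc_unique (hG : Lines cls pos) {e f s t : Fin (m + 1)} (hs : Conc cls pos e f s)
    (ht : Conc cls pos e f t) : s = t :=
  hG.inj s t (third3 hs.1 hs.2.2.1 (Ne.symm hs.2.1) ht.2.2.1 (Ne.symm ht.2.1))
    (by have := hs.2.2.2; have := ht.2.2.2; omega)

theorem ww_conc {e f t : Fin (m + 1)} (h : Conc cls pos e f t) : ww cls pos e f t = 0 := by
  rw [ww_del cls pos h.1]
  unfold del
  rw [if_neg h.2.2.1, if_neg (Ne.symm h.2.1), h.2.2.2]
  simp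

theorem ww_swap (e f t : Fin (m + 1)) : ww cls pos f e t = ww cls pos e f t := by
  have h1 : ∀ a b, vv cls pos a b = vv cls pos b a := by
    intro a b
    unfold vv
    by_cases h : cls a = cls b
    · rw [if_pos h, if_pos h.symm]
      have h3 : ((pos a - pos b : ℤ) : ℝ) = -((pos b - pos a : ℤ) : ℝ) := by
        push_cast
        ring
      rw [h3, Real.log_neg_eq_log]
    · rw [if_neg h, if_neg (Ne.symm h)]
  have h2 : uu cls pos f e t = uu cls pos e f t := by
    unfold uu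
    by_cases h : cls e ≠ cls f ∧ cls f ≠ cls t ∧ cls t ≠ cls e
    · rw [if_pos h, if_pos ⟨h.1.symm, h.2.2.symm, h.2.1.symm⟩]
      congr 2
      ring
    · rw [if_neg h, if_neg (fun h' => h ⟨h'.1.symm, h'.2.2.symm, h'.2.1.symm⟩)]
  unfold ww
  rw [h2, h1 f e, h1 e t, h1 t f]
  ring

/-- the weights at the common point of three lines -/
theorem ww_tri {e f t : Fin (m + 1)} (h : Conc cls pos e f t) (u : Fin (m + 1)) :
    ww cls pos t f u = ww cls pos e f u := by
  obtain ⟨h1, h2, h3, h4⟩ := h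
  rw [ww_del cls pos (Ne.symm h2), ww_del cls pos h1]
  have hk : cls u = cls e ∨ cls u = cls f ∨ cls u = cls t := by
    have : ∀ a b c d : Fin 3, a ≠ b → b ≠ c → c ≠ a → d = a ∨ d = b ∨ d = c := by decide
    exact this _ _ _ _ h1 h2 h3
  unfold del
  rcases hk with h | h | h
  · rw [if_neg (fun h' => h3 (h'.symm.trans h)), if_neg (fun h' => h1 (h.symm.trans h')), if_pos h]
    have h5 : pos t + pos f + pos u = -(pos e - pos u) := by omega
    rw [h5, Int.cast_neg, Real.log_neg_eq_log]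
  · rw [if_neg (fun h' => h2 (h.symm.trans h')), if_pos h, if_neg (fun h' => h1 (h'.symm.trans h)),
      if_pos h]
  · rw [if_pos h, if_neg (fun h' => h3 (h.symm.trans h')), if_neg (fun h' => h2 (h'.symm.trans h))]
    have h5 : pos t - pos u = -(pos e + pos f + pos u) := by omega
    rw [h5, Int.cast_neg, Real.log_neg_eq_log]

/-- small weights at three different lines without a common point -/
def Bt (cls : Fin (m + 1) → Fin 3) (pos : Fin (m + 1) → ℤ) (e f t : Fin (m + 1)) : Prop :=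
  Bd cls pos e f t ∧ ¬ Conc cls pos e f t

theorem Bt_cyc (e f t : Fin (m + 1)) : Bt cls pos f t e ↔ Bt cls pos e f t := by
  unfold Bt
  rw [Bd_cyc, conc_cyc]

theorem del_of_Bt (hG : Lines cls pos) {e f t : Fin (m + 1)} (hef : cls e ≠ cls f)
    (h : Bt cls pos e f t) : del cls pos e f t = 1 ∨ del cls pos e f t = -1 := by
  obtain ⟨⟨hw, h1, h2, h3⟩, hC⟩ := h
  have h0 : del cls pos e f t ≠ 0 := by
    unfold del
    split_ifs with a b
    · intro h
      exact h3 (hG.inj _ _ a (by omega))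
    · intro h
      exact h2 (hG.inj _ _ b.symm (by omega))
    · intro h
      exact hC ⟨hef, Ne.symm b, a, h⟩
  rw [ww_del cls pos hef] at hw
  by_contra hcon
  have h4 : 2 ≤ |del cls pos e f t| := by
    rw [not_or] at hcon
    rcases abs_cases (del cls pos e f t) with hh | hh <;> omega
  have h5 : Real.log 2 ≤ Real.log (del cls pos e f t : ℝ) := by
    rw [← Real.log_abs (del cls pos e f t : ℝ)]
    refine Real.log_le_log (by norm_num) ?_
    exact_mod_cast h4
  linarith

open Classical in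
theorem card_Bt (hG : Lines cls pos) {e f : Fin (m + 1)} (hef : cls e ≠ cls f) :
    (univ.filter fun t => Bt cls pos e f t).card ≤ 6 := by
  have h1 : ((univ : Finset (Fin 3)) ×ˢ ({1, -1} : Finset ℤ)).card = 6 := by
    rw [card_product]
    rfl
  rw [← h1]
  refine card_le_card_of_injOn (fun t => (cls t, del cls pos e f t)) ?_ ?_
  · intro t ht
    rw [mem_coe, mem_filter] at ht
    rw [mem_coe, mem_product]
    refine ⟨mem_univ _, ?_⟩
    rcases del_of_Bt hG hef ht.2 with h | h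
    · simp [h]
    · simp [h]
  · intro s _ t _ hst
    obtain ⟨h2, h3⟩ := Prod.mk.inj hst
    refine hG.inj _ _ h2 ?_
    unfold del at h3
    rw [h2] at h3
    split_ifs at h3 <;> omega

open Classical in
theorem lower3 {c : Fin (m + 1) → Fin (m + 1) → ℝ} (hG : Lines cls pos) (hT : CircT cls pos c) :
    3 * (Real.log 2 * (((m : ℝ) - 17) * ∑ e, ∑ f, (c e f) ^ 2)) ≤
      ∑ e, ∑ f, ∑ t, (c e f + c f t + c t e) ^ 2 * ww cls pos e f t := by
  have hc := hT.circ
  have hl2 : 0 < Real.log 2 := Real.log_pos (by norm_num)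
  obtain ⟨R, hR⟩ : ∃ R : Fin (m + 1) → Fin (m + 1) → Fin (m + 1) → ℝ,
    R = fun e f t => if Bt cls pos e f t then (1 : ℝ) else 0 := ⟨_, rfl⟩
  have hRc : ∀ e f t, R f t e = R e f t := by
    intro e f t
    rw [hR]
    simp only [Bt_cyc e f t]
  have cee : ∀ e, c e e = 0 := fun e => hc.same e e rfl
  have hpt : ∀ e f t, Real.log 2 * ((c e f + c f t + c t e) ^ 2 -
      3 * (R e f t * (c e f) ^ 2 + R e f t * (c f t) ^ 2 + R e f t * (c t e) ^ 2)) ≤
      (c e f + c f t + c t e) ^ 2 * ww cls pos e f t := by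
    intro e f t
    by_cases h : Bt cls pos e f t
    · have h1 : R e f t = 1 := by rw [hR]; exact if_pos h
      rw [h1]
      have h2 : 0 ≤ (c e f + c f t + c t e) ^ 2 * ww cls pos e f t :=
        mul_nonneg (sq_nonneg _) (ww_nonneg cls pos e f t)
      refine le_trans ?_ h2
      refine mul_nonpos_of_nonneg_of_nonpos hl2.le ?_
      nlinarith [sq_nonneg (c e f - c f t), sq_nonneg (c f t - c t e), sq_nonneg (c t e - c e f)]
    · have h1 : R e f t = 0 := by rw [hR]; exact if_neg h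
      rw [h1]
      by_cases h2 : Real.log 2 ≤ ww cls pos e f t
      · have := mul_le_mul_of_nonneg_left h2 (sq_nonneg (c e f + c f t + c t e))
        linarith
      · have h3 : c e f + c f t + c t e = 0 := by
          by_contra hne
          apply h
          refine ⟨⟨not_le.1 h2, ?_, ?_, ?_⟩, fun hC => hne (hT.tri e f t hC)⟩
          · rintro rfl
            apply hne
            rw [cee, hc.anti e t]
            ring
          · rintro rfl
            apply hne
            rw [cee, hc.anti e f]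
            ring
          · rintro rfl
            apply hne
            rw [cee, hc.anti t f]
            ring
        rw [h3]
        norm_num
  have hB1 : ∑ e, ∑ f, ∑ t, R e f t * (c e f) ^ 2 ≤ 6 * ∑ e, ∑ f, (c e f) ^ 2 := by
    rw [mul_sum]
    refine sum_le_sum (fun e _ => ?_)
    rw [mul_sum]
    refine sum_le_sum (fun f _ => ?_)
    rw [← sum_mul]
    by_cases h : cls e = cls f
    · rw [hc.same e f h]
      norm_num
    · refine mul_le_mul_of_nonneg_right ?_ (sq_nonneg _)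
      rw [hR]
      simp only
      rw [← sum_filter, sum_const, nsmul_eq_mul, mul_one]
      exact_mod_cast card_Bt hG h
  have hB2 : ∑ e, ∑ f, ∑ t, R e f t * (c f t) ^ 2 = ∑ e, ∑ f, ∑ t, R e f t * (c e f) ^ 2 := by
    rw [← hcyc (fun e f t => R e f t * (c e f) ^ 2)]
    simp only [hRc]
  have hB3 : ∑ e, ∑ f, ∑ t, R e f t * (c t e) ^ 2 = ∑ e, ∑ f, ∑ t, R e f t * (c e f) ^ 2 := by
    rw [← hB2, ← hcyc (fun e f t => R e f t * (c f t) ^ 2)]
    simp only [hRc]
  have hsum : Real.log 2 * ((∑ e, ∑ f, ∑ t, (c e f + c f t + c t e) ^ 2) -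
      3 * ((∑ e, ∑ f, ∑ t, R e f t * (c e f) ^ 2) + (∑ e, ∑ f, ∑ t, R e f t * (c f t) ^ 2) +
        (∑ e, ∑ f, ∑ t, R e f t * (c t e) ^ 2))) ≤
      ∑ e, ∑ f, ∑ t, (c e f + c f t + c t e) ^ 2 * ww cls pos e f t := by
    have h1 : ∑ e, ∑ f, ∑ t, Real.log 2 * ((c e f + c f t + c t e) ^ 2 -
      3 * (R e f t * (c e f) ^ 2 + R e f t * (c f t) ^ 2 + R e f t * (c t e) ^ 2)) ≤
      ∑ e, ∑ f, ∑ t, (c e f + c f t + c t e) ^ 2 * ww cls pos e f t :=
      sum_le_sum (fun e _ => sum_le_sum (fun f _ => sum_le_sum (fun t _ => hpt e f t)))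
    refine le_of_eq_of_le ?_ h1
    simp only [← mul_sum, sum_sub_distrib, sum_add_distrib]
  rw [hB2, hB3, sum_sq hc] at hsum
  refine le_trans ?_ hsum
  rw [← mul_assoc, mul_comm (3 : ℝ), mul_assoc]
  refine mul_le_mul_of_nonneg_left ?_ hl2.le
  nlinarith [hB1]

/-- the pairs without a third line -/
theorem loc_of_loc3 {ℓ τ : ℝ} {e f : Fin (m + 1)} {P : Fin (m + 1) → Fin (m + 1) → ℝ}
    (hef : cls e ≠ cls f) (hP : Loc3 cls pos ℓ τ e f P) (hno : ∀ t, ¬ Conc cls pos e f t) :
    Loc cls pos ℓ τ e f P := by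
  have hne : e ≠ f := fun h => hef (by rw [h])
  have h0 : ∀ s, s ≠ e → s ≠ f → ∑ t, P s t = 0 := fun s h1 h2 => hP.sum s h1 h2 (hno s)
  have hrowf : ∑ t, P f t = -ℓ := by
    have h1 : ∑ s, ∑ t, P s t = 0 := by
      have h2 : ∑ s, ∑ t, P s t = -∑ s, ∑ t, P s t := by
        conv_lhs => rw [Finset.sum_comm]
        rw [← Finset.sum_neg_distrib]
        refine Finset.sum_congr rfl fun s _ => ?_
        rw [← Finset.sum_neg_distrib]
        exact Finset.sum_congr rfl fun t _ => hP.anti s t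
      linarith
    rw [Finset.sum_eq_add e f hne (fun s _ h => h0 s h.1 h.2)
      (fun h => absurd (Finset.mem_univ _) h) (fun h => absurd (Finset.mem_univ _) h),
      hP.sume] at h1
    linarith
  refine ⟨hP.anti, fun s => ?_, fun s t h1 h2 h3 h4 => hP.small s t h1 h2 (hno s) h3 h4 (hno t),
    fun t h1 h2 => hP.main t h1 h2 (hno t)⟩
  by_cases hse : s = e
  · rw [hse, if_pos rfl, mul_one]; exact hP.sume
  · rw [if_neg hse]
    by_cases hsf : s = f
    · rw [hsf, if_pos rfl, hrowf]; ring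
    · rw [if_neg hsf, mul_zero]; exact h0 s hse hsf

end

theorem tri_bound {m : ℕ} {cls : Fin (m + 1) → Fin 3} {pos : Fin (m + 1) → ℤ} {ℓ τ N : ℝ}
    (hG : Lines cls pos) {e f t : Fin (m + 1)} {P c : Fin (m + 1) → Fin (m + 1) → ℝ}
    (hτ : 0 ≤ τ) (hN : 0 ≤ N) (hC : Conc cls pos e f t) (hP : Loc3 cls pos ℓ τ e f P)
    (hT : CircT cls pos c) (hcN : ∀ s t, |c s t| ≤ N) (h0 : ∑ s, ∑ u, c s u * P s u = 0) :
    |(c e f * ℓ + ∑ u, (c e f + c f u + c u e) * ww cls pos e f u) +
      (c t f * ℓ + ∑ u, (c t f + c f u + c u t) * ww cls pos t f u)| ≤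
      3 * N * τ * ((m : ℝ) + 1) ^ 2 := by
  have hc := hT.circ
  have hef := hC.1
  have hne : e ≠ f := fun h => hC.1 (by rw [h])
  have hft : f ≠ t := fun h => hC.2.1 (by rw [h])
  have hte : t ≠ e := fun h => hC.2.2.1 (by rw [h])
  obtain ⟨I, hI⟩ : ∃ I : Finset (Fin (m + 1)), I = ((univ.erase e).erase f).erase t := ⟨_, rfl⟩
  have hfe : f ∈ univ.erase e := mem_erase.2 ⟨hne.symm, mem_univ f⟩
  have htm : t ∈ (univ.erase e).erase f :=
    mem_erase.2 ⟨hft.symm, mem_erase.2 ⟨hte, mem_univ t⟩⟩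
  have hsplit : ∀ F : Fin (m + 1) → ℝ, ∑ u, F u = F e + F f + F t + ∑ u ∈ I, F u := by
    intro F
    rw [hI, ← add_sum_erase univ F (mem_univ e), ← add_sum_erase _ F hfe,
      ← add_sum_erase _ F htm]
    ring
  have hmem : ∀ u, u ∈ I → u ≠ e ∧ u ≠ f ∧ u ≠ t := by
    intro u hu
    rw [hI, mem_erase, mem_erase, mem_erase] at hu
    exact ⟨hu.2.2.1, hu.2.1, hu.1⟩
  have hnc : ∀ u, u ∈ I → ¬ Conc cls pos e f u := fun u hu h =>
    (hmem u hu).2.2 (conc_unique hG h hC)
  have hcard : (I.card : ℝ) + 3 = (m : ℝ) + 1 := by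
    have h1 := hsplit (fun _ => 1)
    simp only [sum_const, card_univ, Fintype.card_fin, nsmul_eq_mul, mul_one] at h1
    push_cast at h1
    linarith
  have Pee : P e e = 0 := by
    have := hP.anti e e
    linarith
  have Pff : P f f = 0 := by
    have := hP.anti f f
    linarith
  have Ptt : P t t = 0 := by
    have := hP.anti t t
    linarith
  have cee : c e e = 0 := hc.same e e rfl
  have cff : c f f = 0 := hc.same f f rfl
  have ctt : c t t = 0 := hc.same t t rfl
  have A1 : P e f = ℓ - P e t - ∑ u ∈ I, P e u := by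
    have := hP.sume
    rw [hsplit, Pee] at this
    linarith
  have A1' : P t f = ℓ + P e t - ∑ u ∈ I, P t u := by
    have := hP.sumt t hC
    rw [hsplit, Ptt, hP.anti e t] at this
    linarith
  have A2 : ∀ u ∈ I, P f u = -P e u - P t u + ∑ v ∈ I, P u v := by
    intro u hu
    have := hP.sum u (hmem u hu).1 (hmem u hu).2.1 (hnc u hu)
    rw [hsplit, hP.anti e u, hP.anti f u, hP.anti t u] at this
    linarith
  have hR : ∑ s, ∑ u, c s u * P s u = 2 * (c e f * P e f) + 2 * (c e t * P e t) +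
      2 * (c t f * P t f) + 2 * ∑ u ∈ I, c e u * P e u + 2 * ∑ u ∈ I, c f u * P f u +
      2 * ∑ u ∈ I, c t u * P t u + ∑ s ∈ I, ∑ u ∈ I, c s u * P s u := by
    have e1 : ∀ s, ∑ u, c s u * P s u = c s e * P s e + c s f * P s f + c s t * P s t +
        ∑ u ∈ I, c s u * P s u := fun s => hsplit _
    simp only [e1]
    rw [hsplit, sum_add_distrib, sum_add_distrib, sum_add_distrib]
    have e2 : ∀ x, ∑ s ∈ I, c s x * P s x = ∑ s ∈ I, c x s * P x s := fun x =>
      sum_congr rfl (fun s _ => by rw [hc.anti x s, hP.anti x s]; ring)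
    rw [e2, e2, e2, Pee, Pff, Ptt, hc.anti e f, hP.anti e f, hc.anti e t, hP.anti e t,
      hc.anti t f, hP.anti t f]
    ring
  have hE : ∑ u ∈ I, ((c e f + c f u + c u e) * (ww cls pos e f u + P e u) +
      (c t f + c f u + c u t) * (ww cls pos t f u + P t u)) =
      ∑ u ∈ I, (c e f + c f u + c u e) * ww cls pos e f u +
      ∑ u ∈ I, (c t f + c f u + c u t) * ww cls pos t f u +
      ∑ u ∈ I, c e f * P e u + ∑ u ∈ I, c t f * P t u +
      ∑ u ∈ I, c f u * P e u + ∑ u ∈ I, c f u * P t u -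
      ∑ u ∈ I, c e u * P e u - ∑ u ∈ I, c t u * P t u := by
    rw [← sum_add_distrib, ← sum_add_distrib, ← sum_add_distrib, ← sum_add_distrib,
      ← sum_add_distrib, ← sum_sub_distrib, ← sum_sub_distrib]
    refine sum_congr rfl (fun u _ => ?_)
    rw [hc.anti e u, hc.anti t u]
    ring
  have hA : ∑ u ∈ I, c f u * P f u = -∑ u ∈ I, c f u * P e u - ∑ u ∈ I, c f u * P t u +
      ∑ u ∈ I, c f u * ∑ v ∈ I, P u v := by
    rw [← sum_neg_distrib, ← sum_sub_distrib, ← sum_add_distrib]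
    refine sum_congr rfl (fun u hu => ?_)
    rw [A2 u hu]
    ring
  have hB : c e f * P e f = c e f * ℓ - c e f * P e t - ∑ u ∈ I, c e f * P e u := by
    rw [A1, mul_sub, mul_sub, mul_sum]
  have hB' : c t f * P t f = c t f * ℓ + c t f * P e t - ∑ u ∈ I, c t f * P t u := by
    rw [A1', mul_sub, mul_add, mul_sum]
  have hC' : Conc cls pos t f e := (conc_swap e f t).2 hC
  have hT1 : ∑ u, (c e f + c f u + c u e) * ww cls pos e f u =
      ∑ u ∈ I, (c e f + c f u + c u e) * ww cls pos e f u := by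
    rw [hsplit, cee, cff, hc.anti e f, ww_conc hC]
    ring
  have hT2 : ∑ u, (c t f + c f u + c u t) * ww cls pos t f u =
      ∑ u ∈ I, (c t f + c f u + c u t) * ww cls pos t f u := by
    rw [hsplit, ctt, cff, hc.anti t f, ww_conc hC']
    ring
  have hmain : (c e f * ℓ + ∑ u, (c e f + c f u + c u e) * ww cls pos e f u) +
      (c t f * ℓ + ∑ u, (c t f + c f u + c u t) * ww cls pos t f u) =
      ∑ u ∈ I, ((c e f + c f u + c u e) * (ww cls pos e f u + P e u) +
      (c t f + c f u + c u t) * (ww cls pos t f u + P t u)) -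
        (c t f - c e f + c e t) * P e t -
        ∑ u ∈ I, c f u * ∑ v ∈ I, P u v - (∑ s ∈ I, ∑ u ∈ I, c s u * P s u) / 2 := by
    rw [hT1, hT2, hE]
    rw [hR, hA, hB, hB'] at h0
    linarith
  have B1 : |∑ u ∈ I, ((c e f + c f u + c u e) * (ww cls pos e f u + P e u) +
      (c t f + c f u + c u t) * (ww cls pos t f u + P t u))| ≤
      I.card * (6 * N * τ) := by
    refine (abs_sum_le_sum_abs _ _).trans ?_
    rw [← nsmul_eq_mul]
    refine sum_le_card_nsmul _ _ _ (fun u hu => ?_)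
    refine (abs_add_le _ _).trans ?_
    rw [abs_mul, abs_mul]
    have h1 : |c e f + c f u + c u e| ≤ 3 * N := by
      refine (abs_add_three _ _ _).trans ?_
      have := hcN e f
      have := hcN f u
      have := hcN u e
      linarith
    have h1' : |c t f + c f u + c u t| ≤ 3 * N := by
      refine (abs_add_three _ _ _).trans ?_
      have := hcN t f
      have := hcN f u
      have := hcN u t
      linarith
    have h2 : |ww cls pos e f u + P e u| ≤ τ := by
      rw [ww_del cls pos hef, add_comm]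
      exact hP.main u (hmem u hu).1 (hmem u hu).2.1 (hnc u hu)
    have h2' : |ww cls pos t f u + P t u| ≤ τ := by
      rw [ww_tri hC, ww_del cls pos hef, add_comm]
      exact hP.maint t u hC (hmem u hu).1 (hmem u hu).2.1 (hnc u hu)
    have h3 := mul_le_mul h1 h2 (abs_nonneg _) (by positivity)
    have h3' := mul_le_mul h1' h2' (abs_nonneg _) (by positivity)
    linarith
  have B0 : |(c t f - c e f + c e t) * P e t| ≤ 3 * N * τ := by
    rw [abs_mul]
    have h1 : |c t f - c e f + c e t| ≤ 3 * N := by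
      rw [sub_eq_add_neg]
      refine (abs_add_three _ _ _).trans ?_
      rw [abs_neg]
      have := hcN t f
      have := hcN e f
      have := hcN e t
      linarith
    exact mul_le_mul h1 (hP.tri t hC) (abs_nonneg _) (by positivity)
  have B2 : |∑ u ∈ I, c f u * ∑ v ∈ I, P u v| ≤ I.card * (N * (I.card * τ)) := by
    refine (abs_sum_le_sum_abs _ _).trans ?_
    rw [← nsmul_eq_mul]
    refine sum_le_card_nsmul _ _ _ (fun u hu => ?_)
    rw [abs_mul]
    refine mul_le_mul (hcN f u) ?_ (abs_nonneg _) hN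
    refine (abs_sum_le_sum_abs _ _).trans ?_
    rw [← nsmul_eq_mul]
    exact sum_le_card_nsmul _ _ _ (fun v hv => hP.small u v (hmem u hu).1 (hmem u hu).2.1
      (hnc u hu) (hmem v hv).1 (hmem v hv).2.1 (hnc v hv))
  have B3 : |∑ s ∈ I, ∑ u ∈ I, c s u * P s u| ≤ I.card * (I.card * (N * τ)) := by
    refine (abs_sum_le_sum_abs _ _).trans ?_
    rw [← nsmul_eq_mul]
    refine sum_le_card_nsmul _ _ _ (fun s hs => ?_)
    refine (abs_sum_le_sum_abs _ _).trans ?_
    rw [← nsmul_eq_mul]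
    refine sum_le_card_nsmul _ _ _ (fun u hu => ?_)
    rw [abs_mul]
    exact mul_le_mul (hcN s u) (hP.small s u (hmem s hs).1 (hmem s hs).2.1 (hnc s hs)
      (hmem u hu).1 (hmem u hu).2.1 (hnc u hu)) (abs_nonneg _) hN
  rw [hmain, ← hcard]
  obtain ⟨κ, hκ⟩ : ∃ κ : ℝ, κ = I.card := ⟨_, rfl⟩
  have hκ0 : 0 ≤ κ := by rw [hκ]; positivity
  rw [← hκ] at B1 B2 B3 ⊢
  rw [abs_le] at B0 B1 B2 B3 ⊢
  have hNτ : 0 ≤ N * τ := mul_nonneg hN hτ
  have h1 : κ * (6 * N * τ) + 3 * N * τ + κ * (N * (κ * τ)) + κ * (κ * (N * τ)) / 2 ≤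
      3 * N * τ * (κ + 3) ^ 2 := by
    have h2 : 0 ≤ N * τ * κ := mul_nonneg hNτ hκ0
    have h3 : 0 ≤ N * τ * κ ^ 2 := mul_nonneg hNτ (sq_nonneg κ)
    nlinarith
  constructor <;> linarith [B0.1, B0.2, B1.1, B1.2, B2.1, B2.2, B3.1, B3.2]

open Classical in
theorem t_POS3 : S_POS3 := by
  intro m cls pos hG ℓ τ P hℓ0 hτ hℓ hP c hT h0
  have hc := hT.circ
  obtain ⟨⟨e0, f0⟩, -, hmax⟩ := exists_max_image (univ : Finset (Fin (m + 1) × Fin (m + 1)))
    (fun x => |c x.1 x.2|) ⟨(0, 0), mem_univ _⟩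
  obtain ⟨N, hN⟩ : ∃ N : ℝ, N = |c e0 f0| := ⟨_, rfl⟩
  have hN0 : 0 ≤ N := by rw [hN]; exact abs_nonneg _
  have hcN : ∀ s t, |c s t| ≤ N := fun s t => by
    rw [hN]
    exact hmax (s, t) (mem_univ _)
  obtain ⟨A, hA⟩ : ∃ A : Fin (m + 1) → Fin (m + 1) → ℝ, A = fun e f =>
    c e f * ℓ + ∑ t, (c e f + c f t + c t e) * ww cls pos e f t := ⟨_, rfl⟩
  have hAa : ∀ e f, A f e = -A e f := by
    intro e f
    rw [hA]
    simp only
    rw [neg_add, ← sum_neg_distrib, hc.anti e f]
    congr 1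
    · ring
    · refine sum_congr rfl fun t _ => ?_
      rw [ww_swap e f t, hc.anti e t, hc.anti f t]
      have := hc.anti t f
      ring
  obtain ⟨K, hK⟩ : ∃ K : Fin (m + 1) → Fin (m + 1) → Fin (m + 1) → ℝ,
    K = fun e f t => if Conc cls pos e f t then (1 : ℝ) else 0 := ⟨_, rfl⟩
  have hKc : ∀ e f t, K f t e = K e f t := by
    intro e f t
    rw [hK]
    simp only [conc_cyc e f t]
  have hKs : ∀ e f t, K t f e = K e f t := by
    intro e f t
    rw [hK]
    simp only [conc_swap e f t]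
  -- the identity at the triple points
  have hI1 : ∑ e, ∑ f, ∑ t, K e f t * (c e f * A t f) = ∑ e, ∑ f, ∑ t, K e f t * (c t f * A e f) := by
    have h1 : ∑ e, ∑ f, ∑ t, K e f t * (c e f * A t f) =
        ∑ t, ∑ f, ∑ e, K e f t * (c e f * A t f) := by
      calc ∑ e, ∑ f, ∑ t, K e f t * (c e f * A t f) =
            ∑ e, ∑ t, ∑ f, K e f t * (c e f * A t f) := sum_congr rfl fun e _ => sum_comm
        _ = ∑ t, ∑ e, ∑ f, K e f t * (c e f * A t f) := sum_comm
        _ = _ := sum_congr rfl fun t _ => sum_comm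
    rw [h1]
    refine sum_congr rfl fun e _ => sum_congr rfl fun f _ => sum_congr rfl fun t _ => ?_
    rw [hKs]
  have hI2 : ∑ e, ∑ f, ∑ t, K e f t * (c e f * A t f) = -∑ e, ∑ f, ∑ t, K e f t * (c t e * A e f) := by
    have h1 : ∑ e, ∑ f, ∑ t, K f t e * (c e f * A f t) =
        ∑ e, ∑ f, ∑ t, K e f t * (c t e * A e f) :=
      hcyc (fun e f t => K e f t * (c t e * A e f))
    rw [← h1, ← sum_neg_distrib]
    refine sum_congr rfl fun e _ => ?_
    rw [← sum_neg_distrib]
    refine sum_congr rfl fun f _ => ?_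
    rw [← sum_neg_distrib]
    refine sum_congr rfl fun t _ => ?_
    rw [hKc e f t, hAa f t]
    ring
  have hI3 : ∑ e, ∑ f, ∑ t, K e f t * (c e f * A e f) + ∑ e, ∑ f, ∑ t, K e f t * (c t e * A e f) -
      ∑ e, ∑ f, ∑ t, K e f t * (c t f * A e f) = 0 := by
    simp only [← sum_add_distrib, ← sum_sub_distrib]
    refine sum_eq_zero fun e _ => sum_eq_zero fun f _ => sum_eq_zero fun t _ => ?_
    by_cases h : Conc cls pos e f t
    · have h1 := hT.tri e f t h
      have h2 := hc.anti f t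
      have h3 : K e f t * (c e f * A e f) + K e f t * (c t e * A e f) -
          K e f t * (c t f * A e f) = K e f t * A e f * (c e f + c f t + c t e) := by
        rw [h2]; ring
      rw [h3, h1, mul_zero]
    · have h1 : K e f t = 0 := by rw [hK]; exact if_neg h
      rw [h1]; ring
  have hS : ∑ e, ∑ f, ∑ t, K e f t * (c e f * (A e f - 2 * A t f)) = 0 := by
    have h1 : ∑ e, ∑ f, ∑ t, K e f t * (c e f * (A e f - 2 * A t f)) =
        ∑ e, ∑ f, ∑ t, K e f t * (c e f * A e f) - 2 * ∑ e, ∑ f, ∑ t, K e f t * (c e f * A t f) := by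
      simp only [mul_sum, ← sum_sub_distrib]
      refine sum_congr rfl fun e _ => sum_congr rfl fun f _ => sum_congr rfl fun t _ => ?_
      ring
    rw [h1]
    linarith
  have hX : ∀ e f, c e f * A e f - 1 / 3 * ∑ t, K e f t * (c e f * (A e f - 2 * A t f)) ≤
      N * (3 * N * τ * ((m : ℝ) + 1) ^ 2) := by
    intro e f
    by_cases h : cls e = cls f
    · rw [hc.same e f h]
      simp only [zero_mul, mul_zero, sum_const_zero, sub_zero]
      positivity
    · by_cases hex : ∃ t, Conc cls pos e f t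
      · obtain ⟨t, ht⟩ := hex
        have h1 : ∑ u, K e f u * (c e f * (A e f - 2 * A u f)) = c e f * (A e f - 2 * A t f) := by
          rw [sum_eq_single t]
          · have : K e f t = 1 := by rw [hK]; exact if_pos ht
            rw [this, one_mul]
          · intro u _ hu
            have : K e f u = 0 := by
              rw [hK]; exact if_neg fun h' => hu (conc_unique hG h' ht)
            rw [this, zero_mul]
          · intro h'; exact absurd (mem_univ t) h'
        rw [h1]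
        have h2 := tri_bound hG hτ hN0 ht (hP e f h) hT hcN (h0 e f h)
        have h3 : |A e f + A t f| ≤ 3 * N * τ * ((m : ℝ) + 1) ^ 2 := by rw [hA]; exact h2
        have h4 : |c e f * (A e f + A t f)| ≤ N * (3 * N * τ * ((m : ℝ) + 1) ^ 2) := by
          rw [abs_mul]
          exact mul_le_mul (hcN e f) h3 (abs_nonneg _) hN0
        have h5 := le_abs_self (c e f * (A e f + A t f))
        have h6 : 0 ≤ N * (3 * N * τ * ((m : ℝ) + 1) ^ 2) := by positivity
        nlinarith
      · have hno : ∀ t, ¬ Conc cls pos e f t := fun t ht => hex ⟨t, ht⟩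
        have h1 : ∑ u, K e f u * (c e f * (A e f - 2 * A u f)) = 0 := by
          refine sum_eq_zero fun u _ => ?_
          have : K e f u = 0 := by rw [hK]; exact if_neg (hno u)
          rw [this, zero_mul]
        rw [h1, mul_zero, sub_zero]
        refine (le_abs_self _).trans ?_
        rw [abs_mul]
        refine mul_le_mul (hcN e f) ?_ (abs_nonneg _) hN0
        rw [hA]
        exact pair_bound hτ hN0 h (loc_of_loc3 h (hP e f h) hno) hc hcN (h0 e f h)
  have hsum' : ∑ e, ∑ f, (c e f * A e f - 1 / 3 * ∑ t, K e f t * (c e f * (A e f - 2 * A t f))) ≤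
      ((m : ℝ) + 1) * (((m : ℝ) + 1) * (N * (3 * N * τ * ((m : ℝ) + 1) ^ 2))) := by
    have hc1 : ((univ : Finset (Fin (m + 1))).card : ℝ) = (m : ℝ) + 1 := by simp
    rw [← hc1, ← nsmul_eq_mul, ← nsmul_eq_mul, hc1]
    refine sum_le_card_nsmul _ _ _ (fun e _ => ?_)
    exact sum_le_card_nsmul _ _ _ (fun f _ => hX e f)
  have hsum : ∑ e, ∑ f, c e f * (c e f * ℓ + ∑ t, (c e f + c f t + c t e) *
      ww cls pos e f t) ≤ ((m : ℝ) + 1) * (((m : ℝ) + 1) *
        (N * (3 * N * τ * ((m : ℝ) + 1) ^ 2))) := by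
    refine le_of_eq_of_le ?_ hsum'
    simp only [sum_sub_distrib, ← mul_sum]
    rw [hS, mul_zero, sub_zero, hA]
  have hexp : ∑ e, ∑ f, c e f * (c e f * ℓ + ∑ t, (c e f + c f t + c t e) *
      ww cls pos e f t) = ℓ * ∑ e, ∑ f, (c e f) ^ 2 +
        ∑ e, ∑ f, ∑ t, c e f * ((c e f + c f t + c t e) * ww cls pos e f t) := by
    rw [mul_sum, ← sum_add_distrib]
    refine sum_congr rfl (fun e _ => ?_)
    rw [mul_sum, ← sum_add_distrib]
    refine sum_congr rfl (fun f _ => ?_)
    rw [mul_add, mul_sum]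
    ring
  have hS0 : 0 ≤ ∑ e, ∑ f, (c e f) ^ 2 :=
    sum_nonneg (fun e _ => sum_nonneg (fun f _ => sq_nonneg _))
  have hl2 : 0 < Real.log 2 := Real.log_pos (by norm_num)
  have hpos : Real.log 2 * (max 0 ((m : ℝ) - 17) * ∑ e, ∑ f, (c e f) ^ 2) ≤
      ∑ e, ∑ f, ∑ t, c e f * ((c e f + c f t + c t e) * ww cls pos e f t) := by
    have e1 := hcyc (fun e f t => c e f * ((c e f + c f t + c t e) * ww cls pos e f t))
    have e2 := hcyc (fun e f t => c f t * ((c f t + c t e + c e f) * ww cls pos f t e))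
    have e3 : 0 ≤ ∑ e, ∑ f, ∑ t, (c e f + c f t + c t e) ^ 2 * ww cls pos e f t :=
      sum_nonneg (fun e _ => sum_nonneg (fun f _ => sum_nonneg (fun t _ =>
        mul_nonneg (sq_nonneg _) (ww_nonneg cls pos e f t))))
    have e5 := lower3 hG hT
    have e4 : ∑ e, ∑ f, ∑ t, (c e f + c f t + c t e) ^ 2 * ww cls pos e f t =
        ∑ e, ∑ f, ∑ t, c e f * ((c e f + c f t + c t e) * ww cls pos e f t) +
        ∑ e, ∑ f, ∑ t, c f t * ((c f t + c t e + c e f) * ww cls pos f t e) +
        ∑ e, ∑ f, ∑ t, c t e * ((c t e + c e f + c f t) * ww cls pos t e f) := by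
      simp only [← sum_add_distrib]
      refine sum_congr rfl (fun e _ => sum_congr rfl (fun f _ => sum_congr rfl (fun t _ => ?_)))
      rw [ww_cyc cls pos e f t, ← ww_cyc cls pos t e f]
      ring
    rcases le_total ((m : ℝ) - 17) 0 with h | h
    · rw [max_eq_left h, zero_mul, mul_zero]
      linarith
    · rw [max_eq_right h]
      linarith
  have hsq : N ^ 2 ≤ ∑ e, ∑ f, (c e f) ^ 2 := by
    have h1 : (c e0 f0) ^ 2 ≤ ∑ f, (c e0 f) ^ 2 :=
      single_le_sum (f := fun f => (c e0 f) ^ 2) (fun f _ => sq_nonneg _) (mem_univ f0)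
    have h2 : ∑ f, (c e0 f) ^ 2 ≤ ∑ e, ∑ f, (c e f) ^ 2 :=
      single_le_sum (f := fun e => ∑ f, (c e f) ^ 2)
        (fun e _ => sum_nonneg (fun f _ => sq_nonneg _)) (mem_univ e0)
    rw [hN, sq_abs]
    exact h1.trans h2
  obtain ⟨K', hK'⟩ : ∃ K : ℝ, K = ℓ + Real.log 2 * max 0 ((m : ℝ) - 17) := ⟨_, rfl⟩
  have hK0 : 0 ≤ K' := by
    rw [hK']
    exact add_nonneg hℓ0 (mul_nonneg hl2.le (le_max_left _ _))
  have hfin : K' * N ^ 2 ≤ 3 * τ * ((m : ℝ) + 1) ^ 4 * N ^ 2 := by
    have h1 : K' * N ^ 2 ≤ K' * ∑ e, ∑ f, (c e f) ^ 2 := mul_le_mul_of_nonneg_left hsq hK0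
    have h2 : ((m : ℝ) + 1) * (((m : ℝ) + 1) * (N * (3 * N * τ * ((m : ℝ) + 1) ^ 2))) =
        3 * τ * ((m : ℝ) + 1) ^ 4 * N ^ 2 := by ring
    have h3 : K' * ∑ e, ∑ f, (c e f) ^ 2 = ℓ * ∑ e, ∑ f, (c e f) ^ 2 +
        Real.log 2 * (max 0 ((m : ℝ) - 17) * ∑ e, ∑ f, (c e f) ^ 2) := by
      rw [hK']
      ring
    linarith
  have hN00 : N = 0 := by
    by_contra hne
    have h1 : 0 < N ^ 2 := by positivity
    rw [← hK'] at hℓ
    nlinarith
  funext e f
  have := hcN e f
  rw [hN00] at this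
  exact abs_nonpos_iff.1 this

end Pool.Agent.J4H97.LA
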