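import Pool.Agent.J4H48.LA.Stm3
import Pool.Agent.J4H62.LA.Loc

/-!
# (LOC3) of project LA, version 3: concurrent lines (after the proof of (LOC2))
-/

set_option autoImplicit false

namespace Pool.Agent.J4H97.LA

open Finset

open Pool.Agent.TH826.MK (KQ symb Unramified unitPart Torus circ norm_circ contDiff_circ circ_add_one
  hasDerivAt_circ)

open Pool.Agent.TH826.UH (pr NZ pr_prod pr_const nz_circ pr_mul pr_neg)

open Pool.Agent.TH577.UA (ARing aeqn au acst)

open Pool.Agent.J4H48.LA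

open Pool.Agent.J4H62.LA

theorem fm4 {V : ℝ → ℂ} {κ κ' : ℝ} (hV : ContDiff ℝ 2 V) (hVp : ∀ s, V (s + 1) = V s)
    (hκ : ∀ s, ‖V s‖ ≤ κ) (hκ' : ∀ s, ‖deriv V s‖ ≤ κ') {η η' : ℝ} (hη : 2 * κ ≤ η)
    (hη' : 2 * κ' + 16 * κ ≤ η') :
    Fm η η' 1 (fun s => 1 + V s / circ (1 / 2) s) := by
  have hκ0 : 0 ≤ κ := (norm_nonneg _).trans (hκ 0)
  have hκ'0 : 0 ≤ κ' := (norm_nonneg _).trans (hκ' 0)
  have hU : ∀ s, ‖circ (1 / 2) s‖ = 1 / 2 := fun s => norm_circ (by norm_num) s
  have hne : ∀ s, circ (1 / 2) s ≠ 0 := (nz_circ (by norm_num : (0:ℝ) < 1 / 2)).ne_zero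
  refine ⟨1, 0, fun s => V s / circ (1 / 2) s, ?_, norm_one, by simp, ?_,
    fun s => ?_, fun s => ?_, fun s => ?_⟩
  · funext s
    simp
  · have e1 : (fun s => V s / circ (1 / 2) s) = fun s => V s * (circ (1 / 2) s)⁻¹ := by
      funext s
      rw [div_eq_mul_inv]
    rw [e1]
    exact hV.mul ((contDiff_circ (1 / 2)).inv hne)
  · simp only [hVp, circ_add_one]
  · rw [norm_div, hU]
    have := hκ s
    linarith
  · have hVd : HasDerivAt V (deriv V s) s := (hV.differentiable (by norm_num) s).hasDerivAt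
    have h3 : HasDerivAt (circ (1 / 2)) (deriv (circ (1 / 2)) s) s :=
      ((contDiff_circ (1 / 2)).differentiable (n := 2) (by norm_num) s).hasDerivAt
    have hU' : ‖deriv (circ (1 / 2)) s‖ ≤ 4 := by
      rw [(hasDerivAt_circ (1 / 2) s).deriv, norm_mul, hU]
      have h5 : ‖(2 * Real.pi * Complex.I : ℂ)‖ = 2 * Real.pi := by
        simp [abs_of_pos Real.pi_pos]
      rw [h5]
      linarith [Real.pi_lt_four]
    rw [(hVd.fun_div h3 (hne s)).deriv, norm_div, norm_pow, hU, div_le_iff₀ (by positivity)]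
    have h6 : ‖deriv V s * circ (1 / 2) s - V s * deriv (circ (1 / 2)) s‖ ≤
        κ' * (1 / 2) + κ * 4 := by
      refine (norm_sub_le _ _).trans (add_le_add ?_ ?_)
      · rw [norm_mul, hU]
        exact mul_le_mul_of_nonneg_right (hκ' s) (by norm_num)
      · rw [norm_mul]
        exact mul_le_mul (hκ s) hU' (norm_nonneg _) hκ0
    linarith

theorem t_LOC3 : S_BRA3 → S_E1 → S_E2 → S_TOR → S_LOC3 := by
  intro hBRA hE1 hE2 hTOR m cls pos lam hG hlam hk e f hef
  classical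
  set iA : Fin (m + 1) → ℤ := fun t => pos e - pos t with hiA
  set iB : Fin (m + 1) → ℤ := fun t => pos f - pos t with hiB
  set iC : Fin (m + 1) → ℤ := fun t => pos e + pos f + pos t with hiC
  have jA : Set.InjOn iA (SA cls e : Set (Fin (m + 1))) := by
    intro t ht t' ht' h
    have h1 := (Finset.mem_filter.1 ht).2.1
    have h2 := (Finset.mem_filter.1 ht').2.1
    exact hG.inj t t' (h1.trans h2.symm) (by simp only [hiA] at h; linarith)
  have jB : Set.InjOn iB (SA cls f : Set (Fin (m + 1))) := by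
    intro t ht t' ht' h
    have h1 := (Finset.mem_filter.1 ht).2.1
    have h2 := (Finset.mem_filter.1 ht').2.1
    exact hG.inj t t' (h1.trans h2.symm) (by simp only [hiB] at h; linarith)
  have jC : Set.InjOn iC (SC cls e f : Set (Fin (m + 1))) := by
    intro t ht t' ht' h
    have h1 := (Finset.mem_filter.1 ht).2
    have h2 := (Finset.mem_filter.1 ht').2
    exact hG.inj t t' (third hef h1.1 h1.2 h2.1 h2.2) (by simp only [hiC] at h; linarith)
  have zA : (0 : ℤ) ∉ (SA cls e).image iA := by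
    intro h
    obtain ⟨t, ht, h0⟩ := Finset.mem_image.1 h
    have h1 := (Finset.mem_filter.1 ht).2
    exact h1.2 (hG.inj t e h1.1 (by simp only [hiA] at h0; linarith))
  have zB : (0 : ℤ) ∉ (SA cls f).image iB := by
    intro h
    obtain ⟨t, ht, h0⟩ := Finset.mem_image.1 h
    have h1 := (Finset.mem_filter.1 ht).2
    exact h1.2 (hG.inj t f h1.1 (by simp only [hiB] at h0; linarith))
  have hcard : m + 1 = ((SA cls e).image iA).card + ((SA cls f).image iB).card +
      ((SC cls e f).image iC).card + 2 := by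
    rw [Finset.card_image_of_injOn jA, Finset.card_image_of_injOn jB,
      Finset.card_image_of_injOn jC]
    have h1 := prod_split (M := ℕ) hef (fun _ => 2)
    simp only [Finset.prod_const, Finset.card_univ, Fintype.card_fin] at h1
    have h2 : 2 ^ (m + 1) = 2 ^ ((SA cls e).card + (SA cls f).card + (SC cls e f).card + 2) := by
      rw [h1]; ring
    exact Nat.pow_right_injective le_rfl h2
  set μ : ℂ := (lam : ℂ) * (-1) ^ (SC cls e f).card with hμ
  have hl0 : 0 < |(lam : ℝ)| := abs_pos.2 (by exact_mod_cast hlam)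
  have hμn : ‖μ‖ = |(lam : ℝ)| := by
    rw [hμ, norm_mul, norm_pow, norm_neg, norm_one, one_pow, mul_one, Complex.norm_intCast]
  obtain ⟨V, hV, hVp, hVe, hVκ, hVκ'⟩ := hBRA ((SA cls e).image iA) ((SA cls f).image iB)
    ((SC cls e f).image iC) μ (m + 1) zA zB hcard
    (norm_pos_iff.1 (by rw [hμn]; exact hl0)) (by rw [hμn]; exact hk)
  set κ : ℝ := 10 ^ 7 / (|(lam : ℝ)| * 2 ^ (m + 1)) with hκ
  rw [hμn, ← hκ] at hVκ hVκ'
  have hκ0 : 0 < κ := by rw [hκ]; positivity
  have hn1 : (1 : ℝ) ≤ ((m + 1 : ℕ) : ℝ) := by push_cast; linarith [(Nat.cast_nonneg m : (0:ℝ) ≤ m)]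
  have hκ1 : κ ≤ 1 / 100 := by
    have h1 := mul_le_mul_of_nonneg_right hn1 hκ0.le
    rw [one_mul] at h1
    linarith [h1.trans hk]
  have hτ : tau3 m lam = 1000 * ((m + 1 : ℕ) : ℝ) * κ := by
    rw [tau3, hκ]
    push_cast
    ring
  -- the equation
  have heq : ∀ s, (lam : ℂ) * ∏ t, Lf cls pos e f V t s = 1 := by
    intro s
    rw [← hVe s, prod_split hef, Finset.prod_image jA, Finset.prod_image jB, Finset.prod_image jC,
      hμ]
    have e1 : Lf cls pos e f V e s = circ (1 / 2) s := by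
      rw [Lf_A rfl]; simp
    have e2 : Lf cls pos e f V f s = V s := by
      rw [Lf_B hef rfl]; simp
    have e3 : ∏ t ∈ SA cls e, Lf cls pos e f V t s =
        ∏ t ∈ SA cls e, (circ (1 / 2) s + ((iA t : ℤ) : ℂ)) :=
      Finset.prod_congr rfl fun t ht => by rw [Lf_A (Finset.mem_filter.1 ht).2.1]
    have e4 : ∏ t ∈ SA cls f, Lf cls pos e f V t s =
        ∏ t ∈ SA cls f, (V s + ((iB t : ℤ) : ℂ)) :=
      Finset.prod_congr rfl fun t ht => by rw [Lf_B hef (Finset.mem_filter.1 ht).2.1]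
    have e5 : ∏ t ∈ SC cls e f, Lf cls pos e f V t s = (-1) ^ (SC cls e f).card *
        ∏ t ∈ SC cls e f, (circ (1 / 2) s + V s + ((iC t : ℤ) : ℂ)) := by
      rw [← Finset.prod_const, ← Finset.prod_mul_distrib]
      refine Finset.prod_congr rfl fun t ht => ?_
      rw [Lf_C (Finset.mem_filter.1 ht).2.1 (Finset.mem_filter.1 ht).2.2]
      ring
    rw [e1, e2, e3, e4, e5]
    ring
  have hlam0 : (lam : ℂ) ≠ 0 := by
    intro h
    have := heq 0
    rw [h, zero_mul] at this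
    exact zero_ne_one this
  have hprod : ∀ s, ∏ t, Lf cls pos e f V t s = (lam : ℂ)⁻¹ := fun s =>
    eq_inv_of_mul_eq_one_right (heq s)
  have hNZ : ∀ t, NZ (Lf cls pos e f V t) := fun t =>
    ⟨(qq_smooth _ _ _ _ hV _).sub contDiff_const, fun s h => by
      have h1 := heq s
      rw [Finset.prod_eq_zero (Finset.mem_univ t) h, mul_zero] at h1
      exact zero_ne_one h1⟩
  obtain ⟨Γ, hΓ1, hΓ2⟩ := hTOR m cls pos lam (qq (cls e) (cls f) (pos e) (pos f) V)
    (qq_smooth _ _ _ _ hV) (qq_per _ _ _ _ hVp) (qq_sum hef _ _ V) heq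
  have hπ := Real.pi_pos
  have hπ3 := Real.pi_gt_three
  -- the forms
  set η : ℝ := 2 * κ with hη
  set η' : ℝ := 2 * (10 * ((m + 1 : ℕ) : ℝ) * κ) + 16 * κ with hη'
  have hη0 : 0 ≤ η := by positivity
  have hη'0 : 0 ≤ η' := by positivity
  have hη4 : η ≤ 1 / 4 := by rw [hη]; linarith
  have hdel0 : ∀ t, t ≠ e → t ≠ f → ¬ Conc cls pos e f t → del cls pos e f t ≠ 0 := by
    intro t hte htf htc
    unfold del
    split_ifs with h1 h2
    · intro h; exact hte (hG.inj t e h1 (by linarith))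
    · intro h; exact htf (hG.inj t f h2 (by linarith))
    · intro h; exact htc ⟨hef, Ne.symm h2, h1, h⟩
  have hform : ∀ t, t ≠ e → t ≠ f → ¬ Conc cls pos e f t →
      Fm η η' |(del cls pos e f t : ℝ)| (Lf cls pos e f V t) := by
    intro t hte htf htc
    have h0 := hdel0 t hte htf htc
    unfold del at h0 ⊢
    split_ifs with h1 h2
    · rw [if_pos h1] at h0
      rw [Lf_A h1]
      exact fm1 hη0 hη'0 h0
    · rw [if_neg h1, if_pos h2] at h0
      rw [Lf_B hef h2]
      exact fm2 hV hVp hVκ hVκ' (by rw [hη]; linarith) (by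
        rw [hη']; nlinarith [mul_nonneg (Nat.cast_nonneg (m+1) : (0:ℝ) ≤ ((m+1 : ℕ) : ℝ)) hκ0.le]) h0
    · rw [if_neg h1, if_neg h2] at h0
      rw [Lf_C h1 h2]
      exact fm3 hV hVp hVκ hVκ' le_rfl le_rfl h0
  have hcne : ∀ t, t ≠ e → t ≠ f → ¬ Conc cls pos e f t → ∀ c : ℂ,
      ‖c‖ = |(del cls pos e f t : ℝ)| → c ≠ 0 := by
    intro t hte htf htc c hc h
    rw [h, norm_zero] at hc
    have := hdel0 t hte htf htc
    exact this (by exact_mod_cast abs_eq_zero.1 hc.symm)
  set P : Fin (m + 1) → Fin (m + 1) → ℝ := fun s t =>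
    pr (Lf cls pos e f V s) (Lf cls pos e f V t) / (2 * Real.pi) with hP
  have hanti : ∀ s t, P t s = -P s t := by
    intro s t
    simp only [hP]
    rw [pr_anti, neg_div]
  have hrow : ∀ s, ∑ t, P s t = pr (Lf cls pos e f V s) (fun _ => (lam : ℂ)⁻¹) / (2 * Real.pi) := by
    intro s
    simp only [hP]
    rw [← Finset.sum_div, ← pr_prod Finset.univ (hNZ s) hNZ]
    congr 2
    funext x
    exact hprod x
  have hrow0 : ∀ s, s ≠ e → s ≠ f → ¬ Conc cls pos e f s → ∑ t, P s t = 0 := by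
    intro s hse hsf hsc
    obtain ⟨c, d, x, hGx, hc, hd, hx, hxp, hxη, -⟩ := hform s hse hsf hsc
    rw [hrow, hGx, (hE2 c d x η (hcne s hse hsf hsc c hc) hd hx hxp hη4 hxη).2, zero_div]
  have hrowe : ∑ t, P e t = Real.log |(lam : ℝ)| := by
    rw [hrow, Lf_A rfl]
    have e1 : (fun s => circ (1 / 2) s + ((pos e - pos e : ℤ) : ℂ)) = circ (1 / 2) := by
      funext s; simp
    rw [e1, pr_const (by norm_num), norm_inv, Real.log_inv, Complex.norm_intCast]
    field_simp
  -- the third line through the point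
  obtain ⟨c0, d0, x0, hG0, hc0, hd0, hx0, hxp0, hxη0, hxη0'⟩ :=
    fm4 hV hVp hVκ hVκ' (η := η) (η' := η') le_rfl le_rfl
  have hc00 : c0 ≠ 0 := by
    intro h
    rw [h, norm_zero] at hc0
    exact zero_ne_one hc0
  set W : ℝ → ℂ := fun s => 1 + V s / circ (1 / 2) s with hW
  have hnU : NZ (circ (1 / 2)) := nz_circ (by norm_num)
  have hnW : NZ W := by
    refine ⟨?_, fun s h => ?_⟩
    · have e1 : W = fun s => 1 + V s * (circ (1 / 2) s)⁻¹ := by
        funext s
        rw [hW]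
        simp only [div_eq_mul_inv]
      rw [e1]
      exact contDiff_const.add (hV.mul (hnU.smooth.inv hnU.ne_zero))
    · have h1 : V s / circ (1 / 2) s = -1 := by
        have h2 : (1 : ℂ) + V s / circ (1 / 2) s = 0 := h
        linear_combination h2
      have h3 : ‖V s / circ (1 / 2) s‖ = 1 := by rw [h1, norm_neg, norm_one]
      rw [norm_div, norm_circ (by norm_num) s] at h3
      have := hVκ s
      linarith
  have hL3 : ∀ s, Conc cls pos e f s → Lf cls pos e f V s =
      fun x => -(circ (1 / 2) x * W x) := by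
    intro s hs
    rw [Lf_C hs.2.2.1 (Ne.symm hs.2.1), hs.2.2.2]
    funext x
    have := hnU.ne_zero x
    simp only [hW]
    push_cast
    field_simp
    ring
  have hpr3 : ∀ s, Conc cls pos e f s → ∀ G : ℝ → ℂ, NZ G →
      pr (Lf cls pos e f V s) G = pr (circ (1 / 2)) G + pr W G := by
    intro s hs G hG'
    rw [hL3 s hs, pr_anti, pr_neg, pr_mul hG' hnU hnW, pr_anti (circ (1 / 2)) G, pr_anti W G]
    ring
  have hlinv : NZ (fun _ : ℝ => (lam : ℂ)⁻¹) := ⟨contDiff_const, fun _ => inv_ne_zero hlam0⟩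
  have hrow3 : ∀ s, Conc cls pos e f s → ∑ t, P s t = Real.log |(lam : ℝ)| := by
    intro s hs
    rw [hrow, hpr3 s hs _ hlinv]
    rw [hrow, Lf_A rfl] at hrowe
    have e1 : (fun s => circ (1 / 2) s + ((pos e - pos e : ℤ) : ℂ)) = circ (1 / 2) := by
      funext s; simp
    rw [e1] at hrowe
    rw [add_div, hrowe, hG0, (hE2 c0 d0 x0 η hc00 hd0 hx0 hxp0 hη4 hxη0).2, zero_div, add_zero]
  have hPe : Lf cls pos e f V e = circ (1 / 2) := by
    rw [Lf_A rfl]; funext s; simp
  have h2π : (0:ℝ) < 2 * Real.pi := by positivity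
  have hn0 : (0:ℝ) < ((m+1 : ℕ) : ℝ) := by linarith
  have hnκ := mul_pos hn0 hκ0
  have hκn := mul_le_mul_of_nonneg_right hn1 hκ0.le
  refine ⟨Γ, P, fun s t => ?_, ⟨hanti, hrowe, hrow3, hrow0,
    fun s t hse hsf hsc hte htf htc => ?_, fun t hte htf htc => ?_,
    fun s t hs hte htf htc => ?_, fun t ht => ?_⟩⟩
  · rw [hΓ2]
    simp only [hP]
    rw [mul_div_cancel₀ _ (by positivity)]
    rfl
  · obtain ⟨c, d, x, hGx, hc, hd, hx, hxp, hxη, hxη'⟩ := hform s hse hsf hsc
    obtain ⟨c', d', x', hGx', hc', hd', hx', hxp', hyη, hyη'⟩ := hform t hte htf htc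
    have h1 := hE1 c c' d d' x x' η η' (hcne s hse hsf hsc c hc) (hcne t hte htf htc c' hc')
      hd hd' hx hx' hxp hxp' hη4 hxη hyη hxη' hyη'
    rw [← hGx, ← hGx'] at h1
    simp only [hP]
    rw [abs_div, abs_of_pos h2π, div_le_iff₀ h2π, hτ]
    refine h1.trans ?_
    rw [hη, hη']
    nlinarith [mul_le_mul_of_nonneg_left hπ3.le hnκ.le]
  · obtain ⟨c, d, x, hGx, hc, hd, hx, hxp, hxη, -⟩ := hform t hte htf htc
    have h1 := (hE2 c d x η (hcne t hte htf htc c hc) hd hx hxp hη4 hxη).1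
    rw [← hGx, hc, Real.log_abs] at h1
    have h2 : P e t + Real.log (del cls pos e f t : ℝ) =
        (pr (circ (1 / 2)) (Lf cls pos e f V t) + 2 * Real.pi * Real.log (del cls pos e f t : ℝ)) /
          (2 * Real.pi) := by
      simp only [hP]
      rw [hPe]
      field_simp
    rw [h2, abs_div, abs_of_pos h2π, div_le_iff₀ h2π, hτ]
    refine h1.trans ?_
    rw [hη]
    nlinarith [mul_pos hπ hκ0, mul_le_mul_of_nonneg_left hκn hπ.le]
  · obtain ⟨c, d, x, hGx, hc, hd, hx, hxp, hxη, hxη'⟩ := hform t hte htf htc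
    have h1 := (hE2 c d x η (hcne t hte htf htc c hc) hd hx hxp hη4 hxη).1
    have h3 := hE1 c0 c d0 d x0 x η η' hc00 (hcne t hte htf htc c hc)
      hd0 hd hx0 hx hxp0 hxp hη4 hxη0 hxη hxη0' hxη'
    rw [← hGx, hc, Real.log_abs] at h1
    rw [← hG0, ← hGx] at h3
    have h2 : P s t + Real.log (del cls pos e f t : ℝ) =
        ((pr (circ (1 / 2)) (Lf cls pos e f V t) +
          2 * Real.pi * Real.log (del cls pos e f t : ℝ)) + pr W (Lf cls pos e f V t)) /
          (2 * Real.pi) := by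
      simp only [hP]
      rw [hpr3 s hs _ (hNZ t)]
      field_simp
      ring
    rw [h2, abs_div, abs_of_pos h2π, div_le_iff₀ h2π, hτ]
    refine (abs_add_le _ _).trans ((add_le_add h1 h3).trans ?_)
    rw [hη, hη']
    nlinarith [mul_pos hπ hκ0, mul_le_mul_of_nonneg_left hκn hπ.le,
      mul_le_mul_of_nonneg_left hπ3.le hnκ.le]
  · have h1 := (hE2 c0 d0 x0 η hc00 hd0 hx0 hxp0 hη4 hxη0).1
    rw [← hG0, hc0, Real.log_one, mul_zero, add_zero] at h1
    have h4 : pr (circ (1 / 2)) (circ (1 / 2)) = 0 := by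
      have := pr_anti (circ (1 / 2)) (circ (1 / 2))
      linarith
    have h2 : P e t = pr (circ (1 / 2)) W / (2 * Real.pi) := by
      simp only [hP]
      rw [hPe, hL3 t ht, pr_neg, pr_mul hnU hnU hnW, h4, zero_add]
    rw [h2, abs_div, abs_of_pos h2π, div_le_iff₀ h2π, hτ]
    refine h1.trans ?_
    rw [hη]
    nlinarith [mul_pos hπ hκ0, mul_le_mul_of_nonneg_left hκn hπ.le]

end Pool.Agent.J4H97.LA
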